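import Pool.Agent.J4H48.LA.Stm

/-!
# (LOC) of project LA: the loops near the common points of two lines
-/

set_option autoImplicit false

namespace Pool.Agent.J4H62.LA

open Finset

open Pool.Agent.TH826.MK (KQ symb Unramified unitPart Torus circ norm_circ contDiff_circ circ_add_one
  hasDerivAt_circ)

open Pool.Agent.TH826.UH (pr NZ pr_prod pr_const nz_circ)

open Pool.Agent.TH577.UA (ARing aeqn au acst)

open Pool.Agent.J4H48.LA

/-! ### the functions `c (1 + d U) (1 + x)` -/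

/-- the functions `c (1 + d U) (1 + x)`, `|c| = r`, `|d| ≤ 1`, `|x| ≤ η`, `|x'| ≤ η'` -/
def Fm (η η' r : ℝ) (G : ℝ → ℂ) : Prop :=
  ∃ (c d : ℂ) (x : ℝ → ℂ), (G = fun s => c * (1 + d * circ (1 / 2) s) * (1 + x s)) ∧
    ‖c‖ = r ∧ ‖d‖ ≤ 1 ∧ ContDiff ℝ 2 x ∧ (∀ s, x (s + 1) = x s) ∧ (∀ s, ‖x s‖ ≤ η) ∧
    ∀ s, ‖deriv x s‖ ≤ η'

theorem one_le_norm_int {a : ℤ} (ha : a ≠ 0) : (1 : ℝ) ≤ ‖(a : ℂ)‖ := by
  rw [Complex.norm_intCast]
  exact_mod_cast Int.one_le_abs ha

theorem fm1 {η η' : ℝ} (hη : 0 ≤ η) (hη' : 0 ≤ η') {a : ℤ} (ha : a ≠ 0) :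
    Fm η η' |(a : ℝ)| (fun s => circ (1 / 2) s + (a : ℂ)) := by
  have h1 := one_le_norm_int ha
  have h0 : (a : ℂ) ≠ 0 := by exact_mod_cast ha
  refine ⟨a, (a : ℂ)⁻¹, fun _ => 0, ?_, Complex.norm_intCast a, ?_, contDiff_const, fun _ => rfl,
    fun _ => by simpa using hη, fun s => by simpa using hη'⟩
  · funext s
    field_simp
    ring
  · rw [norm_inv]
    exact inv_le_one_of_one_le₀ h1

theorem fm2 {V : ℝ → ℂ} {κ κ' : ℝ} (hV : ContDiff ℝ 2 V) (hVp : ∀ s, V (s + 1) = V s)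
    (hκ : ∀ s, ‖V s‖ ≤ κ) (hκ' : ∀ s, ‖deriv V s‖ ≤ κ') {η η' : ℝ} (hη : κ ≤ η) (hη' : κ' ≤ η')
    {a : ℤ} (ha : a ≠ 0) : Fm η η' |(a : ℝ)| (fun s => V s + (a : ℂ)) := by
  have h1 := one_le_norm_int ha
  have h0 : (a : ℂ) ≠ 0 := by exact_mod_cast ha
  refine ⟨a, 0, fun s => V s / a, ?_, Complex.norm_intCast a, by simp, hV.div_const _,
    fun s => by simp only [hVp], fun s => ?_, fun s => ?_⟩
  · funext s
    field_simp
    ring
  · rw [norm_div]
    exact (div_le_self (norm_nonneg _) h1).trans ((hκ s).trans hη)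
  · rw [deriv_div_const, norm_div]
    exact (div_le_self (norm_nonneg _) h1).trans ((hκ' s).trans hη')

theorem fm3 {V : ℝ → ℂ} {κ κ' : ℝ} (hV : ContDiff ℝ 2 V) (hVp : ∀ s, V (s + 1) = V s)
    (hκ : ∀ s, ‖V s‖ ≤ κ) (hκ' : ∀ s, ‖deriv V s‖ ≤ κ') {η η' : ℝ} (hη : 2 * κ ≤ η)
    (hη' : 2 * κ' + 16 * κ ≤ η') {a : ℤ} (ha : a ≠ 0) :
    Fm η η' |(a : ℝ)| (fun s => -(circ (1 / 2) s + V s + (a : ℂ))) := by
  have h1 := one_le_norm_int ha
  have h0 : (a : ℂ) ≠ 0 := by exact_mod_cast ha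
  have hκ0 : 0 ≤ κ := (norm_nonneg _).trans (hκ 0)
  have hn : ∀ s, (1 / 2 : ℝ) ≤ ‖(a : ℂ) + circ (1 / 2) s‖ := by
    intro s
    have h2 : ‖circ (1 / 2) s‖ = 1 / 2 := norm_circ (by norm_num) s
    have h3 := norm_sub_le ((a : ℂ) + circ (1 / 2) s) (circ (1 / 2) s)
    rw [add_sub_cancel_right] at h3
    linarith
  have hne : ∀ s, (a : ℂ) + circ (1 / 2) s ≠ 0 := by
    intro s h
    have := hn s
    rw [h, norm_zero] at this
    linarith
  have hc : ContDiff ℝ 2 fun s => (a : ℂ) + circ (1 / 2) s :=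
    contDiff_const.add (contDiff_circ (1 / 2))
  refine ⟨-a, (a : ℂ)⁻¹, fun s => V s / ((a : ℂ) + circ (1 / 2) s), ?_, ?_, ?_, ?_,
    fun s => ?_, fun s => ?_, fun s => ?_⟩
  · funext s
    have := hne s
    field_simp
    ring
  · rw [norm_neg]; exact Complex.norm_intCast a
  · rw [norm_inv]
    exact inv_le_one_of_one_le₀ h1
  · have e1 : (fun s => V s / ((a : ℂ) + circ (1 / 2) s)) =
        fun s => V s * ((a : ℂ) + circ (1 / 2) s)⁻¹ := by
      funext s
      rw [div_eq_mul_inv]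
    rw [e1]
    exact hV.mul (hc.inv hne)
  · simp only [hVp, circ_add_one]
  · rw [norm_div, div_le_iff₀ (by linarith [hn s])]
    have := hκ s
    have := hn s
    nlinarith
  · have hVd : HasDerivAt V (deriv V s) s := (hV.differentiable (by norm_num) s).hasDerivAt
    have hcd : HasDerivAt (fun s => (a : ℂ) + circ (1 / 2) s)
        (deriv (circ (1 / 2)) s) s := by
      have h3 : HasDerivAt (circ (1 / 2)) (deriv (circ (1 / 2)) s) s :=
        ((contDiff_circ (1 / 2)).differentiable (n := 2) (by norm_num) s).hasDerivAt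
      exact h3.const_add _
    have hU' : ‖deriv (circ (1 / 2)) s‖ ≤ 4 := by
      rw [(hasDerivAt_circ (1 / 2) s).deriv, norm_mul]
      have h4 : ‖circ (1 / 2) s‖ = 1 / 2 := norm_circ (by norm_num) s
      have h5 : ‖(2 * Real.pi * Complex.I : ℂ)‖ = 2 * Real.pi := by
        simp [abs_of_pos Real.pi_pos]
      rw [h4, h5]
      linarith [Real.pi_lt_four]
    rw [(hVd.fun_div hcd (hne s)).deriv]
    set N : ℝ := ‖(a : ℂ) + circ (1 / 2) s‖ with hN
    have hN2 : (1 / 2 : ℝ) ≤ N := hn s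
    have hN0 : 0 < N := by linarith
    rw [norm_div, norm_pow, ← hN, div_le_iff₀ (by positivity)]
    have h6 : ‖deriv V s * ((a : ℂ) + circ (1 / 2) s) - V s * deriv (circ (1 / 2)) s‖ ≤
        κ' * N + κ * 4 := by
      refine (norm_sub_le _ _).trans (add_le_add ?_ ?_)
      · rw [norm_mul, ← hN]
        exact mul_le_mul_of_nonneg_right (hκ' s) hN0.le
      · rw [norm_mul]
        exact mul_le_mul (hκ s) hU' (norm_nonneg _) hκ0
    refine h6.trans ?_
    have hκ'0 : 0 ≤ κ' := (norm_nonneg _).trans (hκ' 0)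
    have hN4 : (1 / 4 : ℝ) ≤ N ^ 2 := by nlinarith
    have hN5 : N ≤ 2 * N ^ 2 := by nlinarith
    have h7 := mul_le_mul_of_nonneg_left hN5 hκ'0
    have h8 := mul_le_mul_of_nonneg_left hN4 hκ0
    have h9 := mul_le_mul_of_nonneg_right hη' (sq_nonneg N)
    nlinarith

/-! ### combinatorics of the lines -/

theorem three (k : Fin 3) : k = 0 ∨ k = 1 ∨ k = 2 := by
  revert k; decide

section setup

variable {m : ℕ} {cls : Fin (m + 1) → Fin 3} {pos : Fin (m + 1) → ℤ}

theorem gen' (h : Gen cls pos) {e f t : Fin (m + 1)} (h1 : cls e ≠ cls f) (h2 : cls t ≠ cls e)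
    (h3 : cls t ≠ cls f) : pos e + pos f + pos t ≠ 0 := by
  intro h0
  rcases three (cls e) with he | he | he <;> rcases three (cls f) with hf | hf | hf <;>
    rcases three (cls t) with ht | ht | ht <;>
    first
    | exact absurd (he.trans hf.symm) h1
    | exact absurd (ht.trans he.symm) h2
    | exact absurd (ht.trans hf.symm) h3
    | exact h.gen _ _ _ he hf ht (by linarith)
    | exact h.gen _ _ _ he ht hf (by linarith)
    | exact h.gen _ _ _ hf he ht (by linarith)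
    | exact h.gen _ _ _ hf ht he (by linarith)
    | exact h.gen _ _ _ ht he hf (by linarith)
    | exact h.gen _ _ _ ht hf he (by linarith)

theorem third {k0 k1 a b : Fin 3} (h : k0 ≠ k1) (ha0 : a ≠ k0) (ha1 : a ≠ k1) (hb0 : b ≠ k0)
    (hb1 : b ≠ k1) : a = b := by
  revert k0 k1 a b; decide

/-- the coordinates -/
noncomputable def qq (k0 k1 : Fin 3) (a b : ℤ) (V : ℝ → ℂ) (k : Fin 3) (s : ℝ) : ℂ :=
  if k = k0 then circ (1 / 2) s + a else if k = k1 then V s + b else
    -(circ (1 / 2) s + V s + a + b)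

theorem qq_sum {k0 k1 : Fin 3} (h : k0 ≠ k1) (a b : ℤ) (V : ℝ → ℂ) (s : ℝ) :
    qq k0 k1 a b V 0 s + qq k0 k1 a b V 1 s + qq k0 k1 a b V 2 s = 0 := by
  rcases three k0 with h0 | h0 | h0 <;> rcases three k1 with h1 | h1 | h1 <;> subst h0 <;>
    subst h1 <;> first | exact absurd rfl h | (simp [qq]; ring)

theorem qq_smooth (k0 k1 : Fin 3) (a b : ℤ) {V : ℝ → ℂ} (hV : ContDiff ℝ 2 V) (k : Fin 3) :
    ContDiff ℝ 2 (qq k0 k1 a b V k) := by
  unfold qq
  split_ifs
  · exact (contDiff_circ (1 / 2)).add contDiff_const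
  · exact hV.add contDiff_const
  · exact ((((contDiff_circ (1 / 2)).add hV).add contDiff_const).add contDiff_const).neg

theorem qq_per (k0 k1 : Fin 3) (a b : ℤ) {V : ℝ → ℂ} (hV : ∀ s, V (s + 1) = V s) (k : Fin 3)
    (s : ℝ) : qq k0 k1 a b V k (s + 1) = qq k0 k1 a b V k s := by
  unfold qq
  rw [hV, circ_add_one]

/-- the line `t` on the loop -/
noncomputable def Lf (cls : Fin (m + 1) → Fin 3) (pos : Fin (m + 1) → ℤ) (e f : Fin (m + 1))
    (V : ℝ → ℂ) (t : Fin (m + 1)) : ℝ → ℂ :=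
  fun s => qq (cls e) (cls f) (pos e) (pos f) V (cls t) s - (pos t : ℂ)

variable {e f : Fin (m + 1)} {V : ℝ → ℂ}

theorem Lf_A {t : Fin (m + 1)} (h : cls t = cls e) :
    Lf cls pos e f V t = fun s => circ (1 / 2) s + ((pos e - pos t : ℤ) : ℂ) := by
  funext s
  unfold Lf qq
  rw [if_pos h]
  push_cast
  ring

theorem Lf_B (hef : cls e ≠ cls f) {t : Fin (m + 1)} (h : cls t = cls f) :
    Lf cls pos e f V t = fun s => V s + ((pos f - pos t : ℤ) : ℂ) := by
  funext s
  unfold Lf qq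
  rw [if_neg (fun h' => hef (h'.symm.trans h)), if_pos h]
  push_cast
  ring

theorem Lf_C {t : Fin (m + 1)} (h0 : cls t ≠ cls e) (h1 : cls t ≠ cls f) :
    Lf cls pos e f V t =
      fun s => -(circ (1 / 2) s + V s + ((pos e + pos f + pos t : ℤ) : ℂ)) := by
  funext s
  unfold Lf qq
  rw [if_neg h0, if_neg h1]
  push_cast
  ring

/-- the three sets of lines -/
def SA (cls : Fin (m + 1) → Fin 3) (e : Fin (m + 1)) : Finset (Fin (m + 1)) :=
  univ.filter fun t => cls t = cls e ∧ t ≠ e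

def SC (cls : Fin (m + 1) → Fin 3) (e f : Fin (m + 1)) : Finset (Fin (m + 1)) :=
  univ.filter fun t => cls t ≠ cls e ∧ cls t ≠ cls f

theorem prod_split {M : Type*} [CommMonoid M] (hef : cls e ≠ cls f) (F : Fin (m + 1) → M) :
    ∏ t, F t = F e * F f * (∏ t ∈ SA cls e, F t) * (∏ t ∈ SA cls f, F t) *
      ∏ t ∈ SC cls e f, F t := by
  have h1 : F e = ∏ t, if t = e then F t else 1 := by simp
  have h2 : F f = ∏ t, if t = f then F t else 1 := by simp
  rw [SA, SA, SC, Finset.prod_filter, Finset.prod_filter, Finset.prod_filter, h1, h2,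
    ← Finset.prod_mul_distrib, ← Finset.prod_mul_distrib, ← Finset.prod_mul_distrib,
    ← Finset.prod_mul_distrib]
  refine Finset.prod_congr rfl fun t _ => ?_
  by_cases he : t = e
  · subst he
    have h3 : t ≠ f := fun h => hef (by rw [h])
    simp [h3, hef]
  by_cases hf : t = f
  · subst hf
    simp [he, hef.symm]
  by_cases h4 : cls t = cls e
  · have h5 : cls t ≠ cls f := fun h => hef (h4.symm.trans h)
    simp [he, hf, h4, hef]
  · by_cases h5 : cls t = cls f
    · simp [he, hf, h5, hef.symm]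
    · simp [he, hf, h4, h5]

end setup

/-! ### the loop -/

theorem pr_anti (G H : ℝ → ℂ) : pr G H = -pr H G := by
  unfold pr
  rw [← intervalIntegral.integral_neg]
  refine intervalIntegral.integral_congr fun s _ => ?_
  beta_reduce
  ring

theorem t_LOC : S_BRA → S_E1 → S_E2 → S_TOR → S_LOC := by
  intro hBRA hE1 hE2 hTOR m cls pos lam hG hlam e f hef
  classical
  set iA : Fin (m + 1) → ℤ := fun t => pos e - pos t with hiA
  set iB : Fin (m + 1) → ℤ := fun t => pos f - pos t with hiB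
  set iC : Fin (m + 1) → ℤ := fun t => pos e + pos f + pos t with hiC
  have jA : Set.InjOn iA (SA cls e : Set (Fin (m + 1))) := by
    intro t ht t' ht' h
    have h1 := (Finset.mem_filter.1 ht).2.1
    have h2 := (Finset.mem_filter.1 ht').2.1
    exact hG.inj t t' (h1.trans h2.symm) (by simp only [hiA] at h; linarith)
  have jB : Set.InjOn iB (SA cls f : Set (Fin (m + 1))) := by
    intro t ht t' ht' h
    have h1 := (Finset.mem_filter.1 ht).2.1
    have h2 := (Finset.mem_filter.1 ht').2.1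
    exact hG.inj t t' (h1.trans h2.symm) (by simp only [hiB] at h; linarith)
  have jC : Set.InjOn iC (SC cls e f : Set (Fin (m + 1))) := by
    intro t ht t' ht' h
    have h1 := (Finset.mem_filter.1 ht).2
    have h2 := (Finset.mem_filter.1 ht').2
    exact hG.inj t t' (third hef h1.1 h1.2 h2.1 h2.2) (by simp only [hiC] at h; linarith)
  have zA : (0 : ℤ) ∉ (SA cls e).image iA := by
    intro h
    obtain ⟨t, ht, h0⟩ := Finset.mem_image.1 h
    have h1 := (Finset.mem_filter.1 ht).2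
    exact h1.2 (hG.inj t e h1.1 (by simp only [hiA] at h0; linarith))
  have zB : (0 : ℤ) ∉ (SA cls f).image iB := by
    intro h
    obtain ⟨t, ht, h0⟩ := Finset.mem_image.1 h
    have h1 := (Finset.mem_filter.1 ht).2
    exact h1.2 (hG.inj t f h1.1 (by simp only [hiB] at h0; linarith))
  have zC : (0 : ℤ) ∉ (SC cls e f).image iC := by
    intro h
    obtain ⟨t, ht, h0⟩ := Finset.mem_image.1 h
    have h1 := (Finset.mem_filter.1 ht).2
    exact gen' hG hef h1.1 h1.2 h0
  have hcard : m + 1 = ((SA cls e).image iA).card + ((SA cls f).image iB).card +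
      ((SC cls e f).image iC).card + 2 := by
    rw [Finset.card_image_of_injOn jA, Finset.card_image_of_injOn jB,
      Finset.card_image_of_injOn jC]
    have h1 := prod_split (M := ℕ) hef (fun _ => 2)
    simp only [Finset.prod_const, Finset.card_univ, Fintype.card_fin] at h1
    have h2 : 2 ^ (m + 1) = 2 ^ ((SA cls e).card + (SA cls f).card + (SC cls e f).card + 2) := by
      rw [h1]; ring
    exact Nat.pow_right_injective le_rfl h2
  set μ : ℂ := (lam : ℂ) * (-1) ^ (SC cls e f).card with hμ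
  have hlam1 : (10 : ℝ) ^ 12 ≤ |(lam : ℝ)| := by exact_mod_cast hlam
  have hμn : ‖μ‖ = |(lam : ℝ)| := by
    rw [hμ, norm_mul, norm_pow, norm_neg, norm_one, one_pow, mul_one, Complex.norm_intCast]
  obtain ⟨V, hV, hVp, hVe, hVκ, hVκ'⟩ := hBRA ((SA cls e).image iA) ((SA cls f).image iB)
    ((SC cls e f).image iC) μ (m + 1) zA zB zC hcard (by rw [hμn]; exact hlam1)
  set κ : ℝ := 10 ^ 6 / (|(lam : ℝ)| * 2 ^ (m + 1)) with hκ
  rw [hμn, ← hκ] at hVκ hVκ'
  have hl0 : 0 < |(lam : ℝ)| := by linarith [show (0:ℝ) < 10 ^ 12 by norm_num]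
  have hκ0 : 0 < κ := by rw [hκ]; positivity
  have hκ1 : κ ≤ 1 / 100 := by
    rw [hκ, div_le_iff₀ (by positivity)]
    have h1 : (1 : ℝ) ≤ 2 ^ (m + 1) := one_le_pow₀ (by norm_num)
    nlinarith
  have hn1 : (1 : ℝ) ≤ ((m + 1 : ℕ) : ℝ) := by push_cast; linarith [(Nat.cast_nonneg m : (0:ℝ) ≤ m)]
  have hτ : tau m lam = 1000 * ((m + 1 : ℕ) : ℝ) * κ := by
    rw [tau, hκ]
    push_cast
    ring
  -- the equation
  have heq : ∀ s, (lam : ℂ) * ∏ t, Lf cls pos e f V t s = 1 := by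
    intro s
    rw [← hVe s, prod_split hef, Finset.prod_image jA, Finset.prod_image jB, Finset.prod_image jC,
      hμ]
    have e1 : Lf cls pos e f V e s = circ (1 / 2) s := by
      rw [Lf_A rfl]; simp
    have e2 : Lf cls pos e f V f s = V s := by
      rw [Lf_B hef rfl]; simp
    have e3 : ∏ t ∈ SA cls e, Lf cls pos e f V t s =
        ∏ t ∈ SA cls e, (circ (1 / 2) s + ((iA t : ℤ) : ℂ)) :=
      Finset.prod_congr rfl fun t ht => by rw [Lf_A (Finset.mem_filter.1 ht).2.1]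
    have e4 : ∏ t ∈ SA cls f, Lf cls pos e f V t s =
        ∏ t ∈ SA cls f, (V s + ((iB t : ℤ) : ℂ)) :=
      Finset.prod_congr rfl fun t ht => by rw [Lf_B hef (Finset.mem_filter.1 ht).2.1]
    have e5 : ∏ t ∈ SC cls e f, Lf cls pos e f V t s = (-1) ^ (SC cls e f).card *
        ∏ t ∈ SC cls e f, (circ (1 / 2) s + V s + ((iC t : ℤ) : ℂ)) := by
      rw [← Finset.prod_const, ← Finset.prod_mul_distrib]
      refine Finset.prod_congr rfl fun t ht => ?_
      rw [Lf_C (Finset.mem_filter.1 ht).2.1 (Finset.mem_filter.1 ht).2.2]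
      ring
    rw [e1, e2, e3, e4, e5]
    ring
  have hlam0 : (lam : ℂ) ≠ 0 := by
    intro h
    have := heq 0
    rw [h, zero_mul] at this
    exact zero_ne_one this
  have hprod : ∀ s, ∏ t, Lf cls pos e f V t s = (lam : ℂ)⁻¹ := fun s =>
    eq_inv_of_mul_eq_one_right (heq s)
  have hNZ : ∀ t, NZ (Lf cls pos e f V t) := fun t =>
    ⟨(qq_smooth _ _ _ _ hV _).sub contDiff_const, fun s h => by
      have h1 := heq s
      rw [Finset.prod_eq_zero (Finset.mem_univ t) h, mul_zero] at h1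
      exact zero_ne_one h1⟩
  obtain ⟨Γ, hΓ1, hΓ2⟩ := hTOR m cls pos lam (qq (cls e) (cls f) (pos e) (pos f) V)
    (qq_smooth _ _ _ _ hV) (qq_per _ _ _ _ hVp) (qq_sum hef _ _ V) heq
  have hπ := Real.pi_pos
  have hπ3 := Real.pi_gt_three
  -- the forms
  set η : ℝ := 2 * κ with hη
  set η' : ℝ := 2 * (10 * ((m + 1 : ℕ) : ℝ) * κ) + 16 * κ with hη'
  have hη0 : 0 ≤ η := by positivity
  have hη'0 : 0 ≤ η' := by positivity
  have hη4 : η ≤ 1 / 4 := by rw [hη]; linarith
  have hdel0 : ∀ t, t ≠ e → t ≠ f → del cls pos e f t ≠ 0 := by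
    intro t hte htf
    unfold del
    split_ifs with h1 h2
    · intro h; exact hte (hG.inj t e h1 (by linarith))
    · intro h; exact htf (hG.inj t f h2 (by linarith))
    · exact gen' hG hef h1 h2
  have hform : ∀ t, t ≠ e → t ≠ f →
      Fm η η' |(del cls pos e f t : ℝ)| (Lf cls pos e f V t) := by
    intro t hte htf
    have h0 := hdel0 t hte htf
    unfold del at h0 ⊢
    split_ifs with h1 h2
    · rw [if_pos h1] at h0
      rw [Lf_A h1]
      exact fm1 hη0 hη'0 h0
    · rw [if_neg h1, if_pos h2] at h0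
      rw [Lf_B hef h2]
      exact fm2 hV hVp hVκ hVκ' (by rw [hη]; linarith) (by
        rw [hη']; nlinarith [mul_nonneg (Nat.cast_nonneg (m+1) : (0:ℝ) ≤ ((m+1 : ℕ) : ℝ)) hκ0.le]) h0
    · rw [if_neg h1, if_neg h2] at h0
      rw [Lf_C h1 h2]
      exact fm3 hV hVp hVκ hVκ' le_rfl le_rfl h0
  have hcne : ∀ t, t ≠ e → t ≠ f → ∀ c : ℂ, ‖c‖ = |(del cls pos e f t : ℝ)| → c ≠ 0 := by
    intro t hte htf c hc h
    rw [h, norm_zero] at hc
    have := hdel0 t hte htf
    exact this (by exact_mod_cast abs_eq_zero.1 hc.symm)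
  set P : Fin (m + 1) → Fin (m + 1) → ℝ := fun s t =>
    pr (Lf cls pos e f V s) (Lf cls pos e f V t) / (2 * Real.pi) with hP
  have hanti : ∀ s t, P t s = -P s t := by
    intro s t
    simp only [hP]
    rw [pr_anti, neg_div]
  have hrow : ∀ s, ∑ t, P s t = pr (Lf cls pos e f V s) (fun _ => (lam : ℂ)⁻¹) / (2 * Real.pi) := by
    intro s
    simp only [hP]
    rw [← Finset.sum_div, ← pr_prod Finset.univ (hNZ s) hNZ]
    congr 2
    funext x
    exact hprod x
  have hrow0 : ∀ s, s ≠ e → s ≠ f → ∑ t, P s t = 0 := by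
    intro s hse hsf
    obtain ⟨c, d, x, hGx, hc, hd, hx, hxp, hxη, -⟩ := hform s hse hsf
    rw [hrow, hGx, (hE2 c d x η (hcne s hse hsf c hc) hd hx hxp hη4 hxη).2, zero_div]
  have hrowe : ∑ t, P e t = Real.log |(lam : ℝ)| := by
    rw [hrow, Lf_A rfl]
    have e1 : (fun s => circ (1 / 2) s + ((pos e - pos e : ℤ) : ℂ)) = circ (1 / 2) := by
      funext s; simp
    rw [e1, pr_const (by norm_num), norm_inv, Real.log_inv, Complex.norm_intCast]
    field_simp
  have hne : e ≠ f := fun h => hef (by rw [h])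
  have hrowf : ∑ t, P f t = -Real.log |(lam : ℝ)| := by
    have h1 : ∑ s, ∑ t, P s t = 0 := by
      have h2 : ∑ s, ∑ t, P s t = -∑ s, ∑ t, P s t := by
        conv_lhs => rw [Finset.sum_comm]
        rw [← Finset.sum_neg_distrib]
        refine Finset.sum_congr rfl fun s _ => ?_
        rw [← Finset.sum_neg_distrib]
        exact Finset.sum_congr rfl fun t _ => hanti s t
      linarith
    rw [Finset.sum_eq_add e f hne (fun s _ h => hrow0 s h.1 h.2)
      (fun h => absurd (Finset.mem_univ _) h) (fun h => absurd (Finset.mem_univ _) h), hrowe] at h1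
    linarith
  refine ⟨Γ, P, hΓ1, fun s t => ?_, ⟨hanti, fun s => ?_, fun s t hse hsf hte htf => ?_,
    fun t hte htf => ?_⟩⟩
  · rw [hΓ2]
    simp only [hP]
    rw [mul_div_cancel₀ _ (by positivity)]
    rfl
  · by_cases hse : s = e
    · rw [hse, if_pos rfl, mul_one]; exact hrowe
    · rw [if_neg hse]
      by_cases hsf : s = f
      · rw [hsf, if_pos rfl, hrowf]; ring
      · rw [if_neg hsf, mul_zero]; exact hrow0 s hse hsf
  · obtain ⟨c, d, x, hGx, hc, hd, hx, hxp, hxη, hxη'⟩ := hform s hse hsf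
    obtain ⟨c', d', x', hGx', hc', hd', hx', hxp', hyη, hyη'⟩ := hform t hte htf
    have h1 := hE1 c c' d d' x x' η η' (hcne s hse hsf c hc) (hcne t hte htf c' hc') hd hd' hx hx'
      hxp hxp' hη4 hxη hyη hxη' hyη'
    rw [← hGx, ← hGx'] at h1
    simp only [hP]
    rw [abs_div, abs_of_pos (by positivity : (0:ℝ) < 2 * Real.pi), div_le_iff₀ (by positivity), hτ]
    refine h1.trans ?_
    rw [hη, hη']
    nlinarith [mul_pos (by linarith : (0:ℝ) < ((m+1 : ℕ) : ℝ)) hκ0,
      mul_le_mul_of_nonneg_right hn1 hκ0.le,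
      mul_le_mul_of_nonneg_left hπ3.le (mul_pos (by linarith : (0:ℝ) < ((m+1 : ℕ) : ℝ)) hκ0).le]
  · obtain ⟨c, d, x, hGx, hc, hd, hx, hxp, hxη, -⟩ := hform t hte htf
    have h1 := (hE2 c d x η (hcne t hte htf c hc) hd hx hxp hη4 hxη).1
    rw [← hGx, hc, Real.log_abs] at h1
    have e1 : Lf cls pos e f V e = circ (1 / 2) := by
      rw [Lf_A rfl]; funext s; simp
    have h2 : P e t + Real.log (del cls pos e f t : ℝ) =
        (pr (circ (1 / 2)) (Lf cls pos e f V t) + 2 * Real.pi * Real.log (del cls pos e f t : ℝ)) /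
          (2 * Real.pi) := by
      simp only [hP]
      rw [e1]
      field_simp
    rw [h2, abs_div, abs_of_pos (by positivity : (0:ℝ) < 2 * Real.pi), div_le_iff₀ (by positivity), hτ]
    refine h1.trans ?_
    rw [hη]
    nlinarith [mul_pos (by linarith : (0:ℝ) < ((m+1 : ℕ) : ℝ)) hκ0,
      mul_le_mul_of_nonneg_right hn1 hκ0.le, mul_pos hπ hκ0,
      mul_le_mul_of_nonneg_left hn1 (mul_pos hπ hκ0).le]

end Pool.Agent.J4H62.LA
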