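import Pool.Agent.J4H48.LA.Stm2
import Pool.Agent.J4H62.LA.Loc

/-!
# (LOC2) of project LA, version 2
-/

set_option autoImplicit false

namespace Pool.Agent.J4H62.LA

open Finset

open Pool.Agent.TH826.MK (KQ symb Unramified unitPart Torus circ norm_circ contDiff_circ circ_add_one
  hasDerivAt_circ)

open Pool.Agent.TH826.UH (pr NZ pr_prod pr_const nz_circ)

open Pool.Agent.TH577.UA (ARing aeqn au acst)

open Pool.Agent.J4H48.LA

theorem t_LOC2 : S_BRA2 → S_E1 → S_E2 → S_TOR → S_LOC2 := by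
  intro hBRA hE1 hE2 hTOR m cls pos lam hG hlam hk e f hef
  classical
  set iA : Fin (m + 1) → ℤ := fun t => pos e - pos t with hiA
  set iB : Fin (m + 1) → ℤ := fun t => pos f - pos t with hiB
  set iC : Fin (m + 1) → ℤ := fun t => pos e + pos f + pos t with hiC
  have jA : Set.InjOn iA (SA cls e : Set (Fin (m + 1))) := by
    intro t ht t' ht' h
    have h1 := (Finset.mem_filter.1 ht).2.1
    have h2 := (Finset.mem_filter.1 ht').2.1
    exact hG.inj t t' (h1.trans h2.symm) (by simp only [hiA] at h; linarith)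
  have jB : Set.InjOn iB (SA cls f : Set (Fin (m + 1))) := by
    intro t ht t' ht' h
    have h1 := (Finset.mem_filter.1 ht).2.1
    have h2 := (Finset.mem_filter.1 ht').2.1
    exact hG.inj t t' (h1.trans h2.symm) (by simp only [hiB] at h; linarith)
  have jC : Set.InjOn iC (SC cls e f : Set (Fin (m + 1))) := by
    intro t ht t' ht' h
    have h1 := (Finset.mem_filter.1 ht).2
    have h2 := (Finset.mem_filter.1 ht').2
    exact hG.inj t t' (third hef h1.1 h1.2 h2.1 h2.2) (by simp only [hiC] at h; linarith)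
  have zA : (0 : ℤ) ∉ (SA cls e).image iA := by
    intro h
    obtain ⟨t, ht, h0⟩ := Finset.mem_image.1 h
    have h1 := (Finset.mem_filter.1 ht).2
    exact h1.2 (hG.inj t e h1.1 (by simp only [hiA] at h0; linarith))
  have zB : (0 : ℤ) ∉ (SA cls f).image iB := by
    intro h
    obtain ⟨t, ht, h0⟩ := Finset.mem_image.1 h
    have h1 := (Finset.mem_filter.1 ht).2
    exact h1.2 (hG.inj t f h1.1 (by simp only [hiB] at h0; linarith))
  have zC : (0 : ℤ) ∉ (SC cls e f).image iC := by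
    intro h
    obtain ⟨t, ht, h0⟩ := Finset.mem_image.1 h
    have h1 := (Finset.mem_filter.1 ht).2
    exact gen' hG hef h1.1 h1.2 h0
  have hcard : m + 1 = ((SA cls e).image iA).card + ((SA cls f).image iB).card +
      ((SC cls e f).image iC).card + 2 := by
    rw [Finset.card_image_of_injOn jA, Finset.card_image_of_injOn jB,
      Finset.card_image_of_injOn jC]
    have h1 := prod_split (M := ℕ) hef (fun _ => 2)
    simp only [Finset.prod_const, Finset.card_univ, Fintype.card_fin] at h1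
    have h2 : 2 ^ (m + 1) = 2 ^ ((SA cls e).card + (SA cls f).card + (SC cls e f).card + 2) := by
      rw [h1]; ring
    exact Nat.pow_right_injective le_rfl h2
  set μ : ℂ := (lam : ℂ) * (-1) ^ (SC cls e f).card with hμ
  have hl0 : 0 < |(lam : ℝ)| := abs_pos.2 (by exact_mod_cast hlam)
  have hμn : ‖μ‖ = |(lam : ℝ)| := by
    rw [hμ, norm_mul, norm_pow, norm_neg, norm_one, one_pow, mul_one, Complex.norm_intCast]
  obtain ⟨V, hV, hVp, hVe, hVκ, hVκ'⟩ := hBRA ((SA cls e).image iA) ((SA cls f).image iB)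
    ((SC cls e f).image iC) μ (m + 1) zA zB zC hcard
    (norm_pos_iff.1 (by rw [hμn]; exact hl0)) (by rw [hμn]; exact hk)
  set κ : ℝ := 10 ^ 6 / (|(lam : ℝ)| * 2 ^ (m + 1)) with hκ
  rw [hμn, ← hκ] at hVκ hVκ'
  have hκ0 : 0 < κ := by rw [hκ]; positivity
  have hn1 : (1 : ℝ) ≤ ((m + 1 : ℕ) : ℝ) := by push_cast; linarith [(Nat.cast_nonneg m : (0:ℝ) ≤ m)]
  have hκ1 : κ ≤ 1 / 100 := by
    have h1 := mul_le_mul_of_nonneg_right hn1 hκ0.le
    rw [one_mul] at h1
    linarith [h1.trans hk]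
  have hτ : tau m lam = 1000 * ((m + 1 : ℕ) : ℝ) * κ := by
    rw [tau, hκ]
    push_cast
    ring
  -- the equation
  have heq : ∀ s, (lam : ℂ) * ∏ t, Lf cls pos e f V t s = 1 := by
    intro s
    rw [← hVe s, prod_split hef, Finset.prod_image jA, Finset.prod_image jB, Finset.prod_image jC,
      hμ]
    have e1 : Lf cls pos e f V e s = circ (1 / 2) s := by
      rw [Lf_A rfl]; simp
    have e2 : Lf cls pos e f V f s = V s := by
      rw [Lf_B hef rfl]; simp
    have e3 : ∏ t ∈ SA cls e, Lf cls pos e f V t s =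
        ∏ t ∈ SA cls e, (circ (1 / 2) s + ((iA t : ℤ) : ℂ)) :=
      Finset.prod_congr rfl fun t ht => by rw [Lf_A (Finset.mem_filter.1 ht).2.1]
    have e4 : ∏ t ∈ SA cls f, Lf cls pos e f V t s =
        ∏ t ∈ SA cls f, (V s + ((iB t : ℤ) : ℂ)) :=
      Finset.prod_congr rfl fun t ht => by rw [Lf_B hef (Finset.mem_filter.1 ht).2.1]
    have e5 : ∏ t ∈ SC cls e f, Lf cls pos e f V t s = (-1) ^ (SC cls e f).card *
        ∏ t ∈ SC cls e f, (circ (1 / 2) s + V s + ((iC t : ℤ) : ℂ)) := by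
      rw [← Finset.prod_const, ← Finset.prod_mul_distrib]
      refine Finset.prod_congr rfl fun t ht => ?_
      rw [Lf_C (Finset.mem_filter.1 ht).2.1 (Finset.mem_filter.1 ht).2.2]
      ring
    rw [e1, e2, e3, e4, e5]
    ring
  have hlam0 : (lam : ℂ) ≠ 0 := by
    intro h
    have := heq 0
    rw [h, zero_mul] at this
    exact zero_ne_one this
  have hprod : ∀ s, ∏ t, Lf cls pos e f V t s = (lam : ℂ)⁻¹ := fun s =>
    eq_inv_of_mul_eq_one_right (heq s)
  have hNZ : ∀ t, NZ (Lf cls pos e f V t) := fun t =>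
    ⟨(qq_smooth _ _ _ _ hV _).sub contDiff_const, fun s h => by
      have h1 := heq s
      rw [Finset.prod_eq_zero (Finset.mem_univ t) h, mul_zero] at h1
      exact zero_ne_one h1⟩
  obtain ⟨Γ, hΓ1, hΓ2⟩ := hTOR m cls pos lam (qq (cls e) (cls f) (pos e) (pos f) V)
    (qq_smooth _ _ _ _ hV) (qq_per _ _ _ _ hVp) (qq_sum hef _ _ V) heq
  have hπ := Real.pi_pos
  have hπ3 := Real.pi_gt_three
  -- the forms
  set η : ℝ := 2 * κ with hη
  set η' : ℝ := 2 * (10 * ((m + 1 : ℕ) : ℝ) * κ) + 16 * κ with hη'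
  have hη0 : 0 ≤ η := by positivity
  have hη'0 : 0 ≤ η' := by positivity
  have hη4 : η ≤ 1 / 4 := by rw [hη]; linarith
  have hdel0 : ∀ t, t ≠ e → t ≠ f → del cls pos e f t ≠ 0 := by
    intro t hte htf
    unfold del
    split_ifs with h1 h2
    · intro h; exact hte (hG.inj t e h1 (by linarith))
    · intro h; exact htf (hG.inj t f h2 (by linarith))
    · exact gen' hG hef h1 h2
  have hform : ∀ t, t ≠ e → t ≠ f →
      Fm η η' |(del cls pos e f t : ℝ)| (Lf cls pos e f V t) := by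
    intro t hte htf
    have h0 := hdel0 t hte htf
    unfold del at h0 ⊢
    split_ifs with h1 h2
    · rw [if_pos h1] at h0
      rw [Lf_A h1]
      exact fm1 hη0 hη'0 h0
    · rw [if_neg h1, if_pos h2] at h0
      rw [Lf_B hef h2]
      exact fm2 hV hVp hVκ hVκ' (by rw [hη]; linarith) (by
        rw [hη']; nlinarith [mul_nonneg (Nat.cast_nonneg (m+1) : (0:ℝ) ≤ ((m+1 : ℕ) : ℝ)) hκ0.le]) h0
    · rw [if_neg h1, if_neg h2] at h0
      rw [Lf_C h1 h2]
      exact fm3 hV hVp hVκ hVκ' le_rfl le_rfl h0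
  have hcne : ∀ t, t ≠ e → t ≠ f → ∀ c : ℂ, ‖c‖ = |(del cls pos e f t : ℝ)| → c ≠ 0 := by
    intro t hte htf c hc h
    rw [h, norm_zero] at hc
    have := hdel0 t hte htf
    exact this (by exact_mod_cast abs_eq_zero.1 hc.symm)
  set P : Fin (m + 1) → Fin (m + 1) → ℝ := fun s t =>
    pr (Lf cls pos e f V s) (Lf cls pos e f V t) / (2 * Real.pi) with hP
  have hanti : ∀ s t, P t s = -P s t := by
    intro s t
    simp only [hP]
    rw [pr_anti, neg_div]
  have hrow : ∀ s, ∑ t, P s t = pr (Lf cls pos e f V s) (fun _ => (lam : ℂ)⁻¹) / (2 * Real.pi) := by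
    intro s
    simp only [hP]
    rw [← Finset.sum_div, ← pr_prod Finset.univ (hNZ s) hNZ]
    congr 2
    funext x
    exact hprod x
  have hrow0 : ∀ s, s ≠ e → s ≠ f → ∑ t, P s t = 0 := by
    intro s hse hsf
    obtain ⟨c, d, x, hGx, hc, hd, hx, hxp, hxη, -⟩ := hform s hse hsf
    rw [hrow, hGx, (hE2 c d x η (hcne s hse hsf c hc) hd hx hxp hη4 hxη).2, zero_div]
  have hrowe : ∑ t, P e t = Real.log |(lam : ℝ)| := by
    rw [hrow, Lf_A rfl]
    have e1 : (fun s => circ (1 / 2) s + ((pos e - pos e : ℤ) : ℂ)) = circ (1 / 2) := by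
      funext s; simp
    rw [e1, pr_const (by norm_num), norm_inv, Real.log_inv, Complex.norm_intCast]
    field_simp
  have hne : e ≠ f := fun h => hef (by rw [h])
  have hrowf : ∑ t, P f t = -Real.log |(lam : ℝ)| := by
    have h1 : ∑ s, ∑ t, P s t = 0 := by
      have h2 : ∑ s, ∑ t, P s t = -∑ s, ∑ t, P s t := by
        conv_lhs => rw [Finset.sum_comm]
        rw [← Finset.sum_neg_distrib]
        refine Finset.sum_congr rfl fun s _ => ?_
        rw [← Finset.sum_neg_distrib]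
        exact Finset.sum_congr rfl fun t _ => hanti s t
      linarith
    rw [Finset.sum_eq_add e f hne (fun s _ h => hrow0 s h.1 h.2)
      (fun h => absurd (Finset.mem_univ _) h) (fun h => absurd (Finset.mem_univ _) h), hrowe] at h1
    linarith
  refine ⟨Γ, P, hΓ1, fun s t => ?_, ⟨hanti, fun s => ?_, fun s t hse hsf hte htf => ?_,
    fun t hte htf => ?_⟩⟩
  · rw [hΓ2]
    simp only [hP]
    rw [mul_div_cancel₀ _ (by positivity)]
    rfl
  · by_cases hse : s = e
    · rw [hse, if_pos rfl, mul_one]; exact hrowe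
    · rw [if_neg hse]
      by_cases hsf : s = f
      · rw [hsf, if_pos rfl, hrowf]; ring
      · rw [if_neg hsf, mul_zero]; exact hrow0 s hse hsf
  · obtain ⟨c, d, x, hGx, hc, hd, hx, hxp, hxη, hxη'⟩ := hform s hse hsf
    obtain ⟨c', d', x', hGx', hc', hd', hx', hxp', hyη, hyη'⟩ := hform t hte htf
    have h1 := hE1 c c' d d' x x' η η' (hcne s hse hsf c hc) (hcne t hte htf c' hc') hd hd' hx hx'
      hxp hxp' hη4 hxη hyη hxη' hyη'
    rw [← hGx, ← hGx'] at h1
    simp only [hP]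
    rw [abs_div, abs_of_pos (by positivity : (0:ℝ) < 2 * Real.pi), div_le_iff₀ (by positivity), hτ]
    refine h1.trans ?_
    rw [hη, hη']
    nlinarith [mul_pos (by linarith : (0:ℝ) < ((m+1 : ℕ) : ℝ)) hκ0,
      mul_le_mul_of_nonneg_right hn1 hκ0.le,
      mul_le_mul_of_nonneg_left hπ3.le (mul_pos (by linarith : (0:ℝ) < ((m+1 : ℕ) : ℝ)) hκ0).le]
  · obtain ⟨c, d, x, hGx, hc, hd, hx, hxp, hxη, -⟩ := hform t hte htf
    have h1 := (hE2 c d x η (hcne t hte htf c hc) hd hx hxp hη4 hxη).1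
    rw [← hGx, hc, Real.log_abs] at h1
    have e1 : Lf cls pos e f V e = circ (1 / 2) := by
      rw [Lf_A rfl]; funext s; simp
    have h2 : P e t + Real.log (del cls pos e f t : ℝ) =
        (pr (circ (1 / 2)) (Lf cls pos e f V t) + 2 * Real.pi * Real.log (del cls pos e f t : ℝ)) /
          (2 * Real.pi) := by
      simp only [hP]
      rw [e1]
      field_simp
    rw [h2, abs_div, abs_of_pos (by positivity : (0:ℝ) < 2 * Real.pi), div_le_iff₀ (by positivity), hτ]
    refine h1.trans ?_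
    rw [hη]
    nlinarith [mul_pos (by linarith : (0:ℝ) < ((m+1 : ℕ) : ℝ)) hκ0,
      mul_le_mul_of_nonneg_right hn1 hκ0.le, mul_pos hπ hκ0,
      mul_le_mul_of_nonneg_left hn1 (mul_pos hπ hκ0).le]

end Pool.Agent.J4H62.LA
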