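import Mathlib

/-!
# A family of contractions of a disc: the fixed point is of class `C²` (project LA, piece FIX, Mathlib only)
-/

set_option autoImplicit false

namespace Pool.Agent.J4H62.LA

open Filter Topology Set Metric

section fix

variable {T : ℝ → ℂ → ℂ} {κ : ℝ}

theorem fix_unique (hL : ∀ s v v', ‖v‖ ≤ κ → ‖v'‖ ≤ κ → ‖T s v - T s v'‖ ≤ ‖v - v'‖ / 2)
    {s : ℝ} {v v' : ℂ} (hv : ‖v‖ ≤ κ) (hv' : ‖v'‖ ≤ κ) (h : T s v = v) (h' : T s v' = v') :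
    v = v' := by
  have h1 := hL s v v' hv hv'
  rw [h, h'] at h1
  have h2 : ‖v - v'‖ ≤ 0 := by linarith
  exact sub_eq_zero.1 (norm_le_zero_iff.1 h2)

theorem fix_exists (hκ : 0 < κ) (hB : ∀ s v, ‖v‖ ≤ κ → ‖T s v‖ ≤ κ / 2)
    (hL : ∀ s v v', ‖v‖ ≤ κ → ‖v'‖ ≤ κ → ‖T s v - T s v'‖ ≤ ‖v - v'‖ / 2) (s : ℝ) :
    ∃ v, ‖v‖ ≤ κ ∧ T s v = v := by
  have hmaps : MapsTo (T s) (closedBall (0 : ℂ) κ) (closedBall (0 : ℂ) κ) := by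
    intro v hv
    rw [mem_closedBall_zero_iff] at hv ⊢
    linarith [hB s v hv]
  have hc : ContractingWith (1/2) (hmaps.restrict (T s) _ _) := by
    refine ⟨by
      rw [← NNReal.coe_lt_coe]
      push_cast
      norm_num, LipschitzWith.of_dist_le_mul fun x y => ?_⟩
    rw [Subtype.dist_eq, Subtype.dist_eq, dist_eq_norm, dist_eq_norm]
    have h1 := hL s x y (mem_closedBall_zero_iff.1 x.2) (mem_closedBall_zero_iff.1 y.2)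
    have h2 : (((1/2 : NNReal)) : ℝ) = 1/2 := by push_cast; norm_num
    rw [h2]
    calc ‖T s x - T s y‖ ≤ ‖(x : ℂ) - y‖ / 2 := h1
      _ = 1 / 2 * ‖(x : ℂ) - y‖ := by ring
  obtain ⟨v, hv, hfix, -, -⟩ := ContractingWith.exists_fixedPoint'
    (isClosed_closedBall.isComplete) hmaps hc (x := 0) (by simp [hκ.le]) (edist_ne_top _ _)
  exact ⟨v, mem_closedBall_zero_iff.1 hv, hfix⟩

theorem fix_smooth (hκ : 0 < κ)
    (hC : ∀ s v, ‖v‖ < κ → ContDiffAt ℝ 2 (fun y : ℝ × ℂ => T y.1 y.2) (s, v))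
    (hL : ∀ s v v', ‖v‖ ≤ κ → ‖v'‖ ≤ κ → ‖T s v - T s v'‖ ≤ ‖v - v'‖ / 2)
    {V : ℝ → ℂ} (hV : ∀ s, T s (V s) = V s) (hVκ : ∀ s, ‖V s‖ ≤ κ / 2) : ContDiff ℝ 2 V := by
  rw [contDiff_iff_contDiffAt]
  intro s₀
  have hn : (2 : WithTop ℕ∞) ≠ 0 := by norm_num
  have hv₀ : ‖V s₀‖ < κ := by linarith [hVκ s₀]
  have hT := hC s₀ (V s₀) hv₀
  set T' := fderiv ℝ (fun y : ℝ × ℂ => T y.1 y.2) (s₀, V s₀) with hT'
  have hTd : HasFDerivAt (fun y : ℝ × ℂ => T y.1 y.2) T' (s₀, V s₀) :=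
    (hT.differentiableAt hn).hasFDerivAt
  -- the derivative in the second variable
  have hTv : ∀ w : ℂ, ‖T' (0, w)‖ ≤ ‖w‖ / 2 := by
    intro w
    have h1 : HasFDerivAt (fun v : ℂ => T s₀ v) (T'.comp (ContinuousLinearMap.inr ℝ ℝ ℂ)) (V s₀) := by
      have h2 : HasFDerivAt (fun v : ℂ => ((s₀, v) : ℝ × ℂ)) (ContinuousLinearMap.inr ℝ ℝ ℂ) (V s₀) :=
        hasFDerivAt_prodMk_right s₀ (V s₀)
      exact HasFDerivAt.comp (V s₀) (g := fun y : ℝ × ℂ => T y.1 y.2) hTd h2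
    have h3 := h1.le_of_lip' (C := 1 / 2) (by norm_num) (by
      have h4 : ∀ᶠ v in 𝓝 (V s₀), ‖v‖ < κ := by
        exact (continuous_norm.continuousAt (x := V s₀)).eventually_lt continuousAt_const hv₀
      filter_upwards [h4] with v hv
      have h5 := hL s₀ v (V s₀) hv.le hv₀.le
      linarith)
    calc ‖T' (0, w)‖ = ‖(T'.comp (ContinuousLinearMap.inr ℝ ℝ ℂ)) w‖ := rfl
      _ ≤ ‖T'.comp (ContinuousLinearMap.inr ℝ ℝ ℂ)‖ * ‖w‖ := ContinuousLinearMap.le_opNorm _ _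
      _ ≤ 1 / 2 * ‖w‖ := mul_le_mul_of_nonneg_right h3 (norm_nonneg _)
      _ = ‖w‖ / 2 := by ring
  -- the map
  set Φ : ℝ × ℂ → ℝ × ℂ := fun y => (y.1, y.2 - T y.1 y.2) with hΦ
  have hΦc : ContDiffAt ℝ 2 Φ (s₀, V s₀) := contDiffAt_fst.prodMk (contDiffAt_snd.sub hT)
  have hΦ0 : Φ (s₀, V s₀) = (s₀, 0) := by
    simp only [hΦ]
    rw [hV, sub_self]
  set Φ' : (ℝ × ℂ) →L[ℝ] (ℝ × ℂ) := (ContinuousLinearMap.fst ℝ ℝ ℂ).prod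
    (ContinuousLinearMap.snd ℝ ℝ ℂ - T') with hΦ'
  have hΦd : HasFDerivAt Φ Φ' (s₀, V s₀) := hasFDerivAt_fst.prodMk (hasFDerivAt_snd.sub hTd)
  have hinj : Function.Injective Φ' := by
    intro x y hxy
    have h1 : (Φ' x).1 = (Φ' y).1 := by rw [hxy]
    have h2 : (Φ' x).2 = (Φ' y).2 := by rw [hxy]
    change x.1 = y.1 at h1
    change x.2 - T' x = y.2 - T' y at h2
    have h3 : x - y = (0, x.2 - y.2) := by
      refine Prod.ext ?_ rfl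
      simp [h1]
    have h4 : x.2 - y.2 = T' (0, x.2 - y.2) := by
      rw [← h3, map_sub]
      linear_combination h2
    have h5 := hTv (x.2 - y.2)
    rw [← h4] at h5
    have h6 : ‖x.2 - y.2‖ ≤ 0 := by linarith
    exact Prod.ext h1 (sub_eq_zero.1 (norm_le_zero_iff.1 h6))
  let e0 : (ℝ × ℂ) ≃ₗ[ℝ] (ℝ × ℂ) := LinearEquiv.ofInjectiveEndo (Φ' : (ℝ × ℂ) →ₗ[ℝ] (ℝ × ℂ)) hinj
  let e : (ℝ × ℂ) ≃L[ℝ] (ℝ × ℂ) := e0.toContinuousLinearEquiv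
  have he : (e : (ℝ × ℂ) →L[ℝ] (ℝ × ℂ)) = Φ' := by
    apply ContinuousLinearMap.ext
    intro x
    rfl
  have hΦd' : HasFDerivAt Φ (e : (ℝ × ℂ) →L[ℝ] (ℝ × ℂ)) (s₀, V s₀) := by rw [he]; exact hΦd
  set Ψ := hΦc.localInverse hΦd' hn with hΨ
  have hΨc : ContDiffAt ℝ 2 Ψ (s₀, 0) := by
    have := hΦc.to_localInverse hΦd' hn
    rwa [hΦ0] at this
  have hΨ0 : Ψ (s₀, 0) = (s₀, V s₀) := by
    have := hΦc.localInverse_apply_image hΦd' hn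
    rwa [hΦ0] at this
  have hright : ∀ᶠ ζ in 𝓝 ((s₀, 0) : ℝ × ℂ), Φ (Ψ ζ) = ζ := by
    have := (hΦc.hasStrictFDerivAt' hΦd' hn).eventually_right_inverse
    rwa [hΦ0] at this
  have hin : ContDiffAt ℝ 2 (fun s : ℝ => ((s, 0) : ℝ × ℂ)) s₀ := contDiffAt_id.prodMk contDiffAt_const
  have hg : ContDiffAt ℝ 2 (fun s => (Ψ (s, 0)).2) s₀ :=
    (ContDiffAt.comp s₀ (g := Ψ) (f := fun s : ℝ => ((s, 0) : ℝ × ℂ)) hΨc hin).snd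
  have hgκ : ∀ᶠ s in 𝓝 s₀, ‖(Ψ (s, 0)).2‖ < κ := by
    have h1 : ContinuousAt (fun s => ‖(Ψ (s, 0)).2‖) s₀ := hg.continuousAt.norm
    have h2 : ‖(Ψ (s₀, 0)).2‖ < κ := by rw [hΨ0]; exact hv₀
    exact h1.eventually_lt continuousAt_const h2
  have hr : ∀ᶠ s in 𝓝 s₀, Φ (Ψ (s, 0)) = (s, 0) := (hin.continuousAt.tendsto).eventually hright
  refine hg.congr_of_eventuallyEq ?_
  filter_upwards [hgκ, hr] with s h1 h2
  have h3 : (Ψ (s, 0)).1 = s := congrArg Prod.fst h2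
  have h4 : (Ψ (s, 0)).2 - T (Ψ (s, 0)).1 (Ψ (s, 0)).2 = 0 := congrArg Prod.snd h2
  rw [h3] at h4
  exact fix_unique hL (by linarith [hVκ s]) h1.le (hV s) (sub_eq_zero.1 h4).symm

end fix

theorem fix (T : ℝ → ℂ → ℂ) (κ : ℝ) (hκ : 0 < κ)
    (hC : ∀ s v, ‖v‖ < κ → ContDiffAt ℝ 2 (fun y : ℝ × ℂ => T y.1 y.2) (s, v))
    (hB : ∀ s v, ‖v‖ ≤ κ → ‖T s v‖ ≤ κ / 2)
    (hL : ∀ s v v', ‖v‖ ≤ κ → ‖v'‖ ≤ κ → ‖T s v - T s v'‖ ≤ ‖v - v'‖ / 2)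
    (hP : ∀ s v, ‖v‖ ≤ κ → T (s + 1) v = T s v) :
    ∃ V : ℝ → ℂ, ContDiff ℝ 2 V ∧ (∀ s, V (s + 1) = V s) ∧ (∀ s, ‖V s‖ ≤ κ / 2) ∧
      ∀ s, T s (V s) = V s := by
  choose V hVκ hV using fun s => fix_exists hκ hB hL s
  have hV2 : ∀ s, ‖V s‖ ≤ κ / 2 := fun s => by
    have := hB s (V s) (hVκ s)
    rwa [hV] at this
  refine ⟨V, fix_smooth hκ hC hL hV hV2, fun s => ?_, hV2, hV⟩
  exact fix_unique hL (hVκ _) (hVκ s) (hV _) (by rw [hP s _ (hVκ s)]; exact hV s)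

end Pool.Agent.J4H62.LA
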