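import Pool.Agent.J4H48.LA.Stm
import Pool.Agent.J4H62.LA.FixM

/-!
# (FIX) of project LA
-/

set_option autoImplicit false

namespace Pool.Agent.J4H62.LA

theorem t_FIX : Pool.Agent.J4H48.LA.S_FIX :=
  fun T κ hκ hC hB hL hP => fix T κ hκ hC hB hL hP

end Pool.Agent.J4H62.LA
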